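import Pool.Agent.TH872.Sq.W20

set_option autoImplicit false

namespace Pool.Agent.Results.MP_0bfb7f_nt.DigitRestrictedArguments
open Finset
open Pool.Agent.TH872.Sq (qv dg dg_zero ld SD main_coef fx muF nice_muF vm_size)

/-- the integers below `b ^ k` whose `i`-th digit in base `b` belongs to `D i` for all `i < k` -/
def S (b : ℕ) (D : ℕ → Finset ℕ) (k : ℕ) : Finset ℕ := (range (b ^ k)).filter (fun n : ℕ => ∀ i < k, n / b ^ i % b ∈ D i)

/-- the von Mangoldt function on the integers -/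
noncomputable def vm (x : ℤ) : ℝ := ArithmeticFunction.vonMangoldt x.natAbs

/-- the sum of `θ(n) ∏ Λ(a i n + h i) μ(α n + y)` over the `n < Y` in `S` congruent to `c` modulo `q` -/
noncomputable def Sum (b : ℕ) (D : ℕ → Finset ℕ) (k : ℕ) {r : ℕ} (a h : Fin r → ℤ) (θ : ℕ → ℝ) (α y Y q c : ℕ) : ℝ :=
  ∑ n ∈ (S b D k).filter (fun n => n < Y ∧ n % q = c), θ n * (∏ i, vm (a i * (n : ℤ) + h i)) * (ArithmeticFunction.moebius (α * n + y) : ℝ)

open scoped Classical in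
/-- **Von Mangoldt functions against the Moebius function over integers with restricted digits, for almost all shifts.** -/
theorem result (b : ℕ) (hb : 2 ≤ b) (α : ℕ) (hα : 1 ≤ α) (r B F A U : ℕ) :
    ∃ K₀ : ℕ, ∀ k : ℕ, K₀ ≤ k → ∀ D : ℕ → Finset ℕ, (∀ i < k, D i ⊆ range b ∧ 2 ≤ (D i).card) →
    ∀ X : ℕ, b ^ k ≤ X → X ≤ F * b ^ k →
    ∀ a h : Fin r → ℤ, (∀ i, |a i| ≤ (b : ℤ) ^ (B * k) ∧ |h i| ≤ (b : ℤ) ^ (B * k)) → ∀ θ : ℕ → ℝ, (∀ n, |θ n| ≤ 1) →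
    (((Icc 1 X).filter (fun y : ℕ => ∃ Y q c : ℕ, Y ≤ b ^ k ∧ 1 ≤ q ∧ q ≤ k ^ A ∧
      ((S b D k).card : ℝ) / (k : ℝ) ^ U < |Sum b D k a h θ α y Y q c|)).card : ℝ) ≤ (X : ℝ) / (k : ℝ) ^ U := by
  have hld : ld 0 (α : ℤ) ≠ 0 := by
    unfold ld
    rw [if_pos rfl]
    exact_mod_cast (by omega : α ≠ 0)
  obtain ⟨K₀, h1⟩ := main_coef b hb 0 (α : ℤ) hld muF nice_muF F A (2 * r) U
  refine ⟨K₀ + (B + 2) * b, fun k hk D hD X hX1 hX2 a h hah θ hθ => ?_⟩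
  have hL : ∀ n < b ^ k, |θ n * ∏ i, vm (a i * (n : ℤ) + h i)| ≤ (k : ℝ) ^ (2 * r) := by
    intro n hn
    rw [abs_mul, abs_prod]
    calc |θ n| * ∏ i, |vm (a i * (n : ℤ) + h i)| ≤ 1 * ∏ _i : Fin r, (k : ℝ) ^ 2 := by
          apply mul_le_mul (hθ n) _ (prod_nonneg fun _ _ => abs_nonneg _) zero_le_one
          exact prod_le_prod (fun _ _ => abs_nonneg _) fun i _ => vm_size b B k n hb (by omega) hn _ _ (hah i).1 (hah i).2
      _ = _ := by rw [prod_const, card_univ, Fintype.card_fin, one_mul, ← pow_mul]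
  have h2 := h1 k (by omega) D hD 1 (Or.inl rfl) X (by rw [dg_zero, one_mul]; exact hX1) (by rw [dg_zero, one_mul]; exact hX2)
    (fun n => θ n * ∏ i, vm (a i * (n : ℤ) + h i)) hL
    (fun y : ℕ => ∃ Y q c : ℕ, Y ≤ b ^ k ∧ 1 ≤ q ∧ q ≤ k ^ A ∧ ((S b D k).card : ℝ) / (k : ℝ) ^ U < |Sum b D k a h θ α y Y q c|) (by
      intro y hy hQ
      rw [mem_Icc] at hy
      obtain ⟨Y, q, c, hY, hq1, hq2, hlt⟩ := hQ
      refine ⟨Y, q, c, hY, hq1, hq2, ?_⟩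
      refine lt_of_lt_of_le hlt (le_of_eq ?_)
      unfold Sum
      congr 1
      apply sum_congr rfl
      intro n _
      congr 1
      unfold fx qv muF
      have e1 : (0 : ℤ) * (n : ℤ) ^ 2 + (α : ℤ) * n + 1 * (y : ℤ) = ((α * n + y : ℕ) : ℤ) := by push_cast; ring
      rw [e1, if_pos (by exact_mod_cast (by omega : 1 ≤ α * n + y)), Int.toNat_natCast])
  exact h2

end Pool.Agent.Results.MP_0bfb7f_nt.DigitRestrictedArguments
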