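import Pool.Agent.TH894.LG7
import Pool.Agent.W93.LM8

/-!
# Correlations of the Möbius function with shifted primes: the shift arises from an arbitrary integer by
`C log log X` changes of digits
-/

set_option autoImplicit false

namespace Pool.Agent.Results.MP_0bfb7f_nt.FewDigitChanges

open Finset

/-- The Möbius function, with complex values. -/
noncomputable def mob (n : ℕ) : ℂ := ((ArithmeticFunction.moebius n : ℤ) : ℂ)

/-- The digit number `i` (counted from the right, beginning with `0`) of `n` in base `b`. -/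
def digit (b i n : ℕ) : ℕ := n / b ^ i % b

/-- The number which arises from the number `N` with at most `K` digits in base `b`, if for every `i ∈ S`
the digit number `i` is replaced by `f i`. -/
def change (b K N : ℕ) (f : ℕ → ℕ) (S : Finset ℕ) : ℕ :=
  ∑ i ∈ range K, (if i ∈ S then f i else digit b i N) * b ^ i

/-- The positions `1, ..., K - 1` of a number with at most `K` digits are divided into three windows: the
first and the last `h` positions and the rest. -/
def window (h K : ℕ) (q : Fin 3) : Finset ℕ :=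
  if q = 0 then Ico 1 (1 + h) else if q = 1 then Ico (1 + h) (K - h) else Ico (K - h) K

/-- The choices of `s 0`, `s 1`, `s 2` positions in the three windows. -/
def choices (h K : ℕ) (s : Fin 3 → ℕ) : Finset (Fin 3 → Finset ℕ) :=
  Fintype.piFinset (fun q => powersetCard (s q) (window h K q))

open Classical in
/-- The number of the choices for which the number obtained by changing the digits of `N` at the chosen
positions (according to `f`) does not have the property `E`. -/
noncomputable def exceptions (b h K N : ℕ) (f : ℕ → ℕ) (s : Fin 3 → ℕ) (E : ℕ → Prop) : ℕ :=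
  ((choices h K s).filter (fun S => ¬ E (change b K N f (S 0 ∪ S 1 ∪ S 2)))).card

lemma change_SM (b K N : ℕ) (f : ℕ → ℕ) (T : Finset ℕ) : change b K N f T = Pool.Agent.TH894.SM.change b K N f T := rfl

/-- For every base `b ≥ 2` there is an `R ≥ 1` with the following property. Let `r`, `B`, `T`, `U` be given. Then there
are `C ≥ 1` and `A` such that for every sufficiently large `K` and every integer `0 ≤ N < b ^ K` the following holds.

Let `m = ⌊log_b (K + 1)⌋ + 1` and `h = A m`, and divide the positions `1, ..., K - 1` of the digits into three windows: the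
first `h` and the last `h` of them, and the rest. Prescribe for every position `j` a digit `f j` different from the
digit of `N`. Let `s 0`, `s 1`, `s 2` be integers between `C m` and `1 / R` times the length of the respective
window (by the first assertion one can take `s q = C m`, so that only `3 C m` of the digits of `N` are changed).
For each of at most `K ^ T` indices `l` let `α l ≥ 1`, let `a l i n + h l i` for `i < r` be arbitrary linear forms
with non-negative coefficients `≤ b ^ (B K)`, and let `θ l : ℕ → ℂ` be an arbitrary function bounded by `1`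
(for example a product of values of the Möbius function).

If one chooses `s 0`, `s 1`, `s 2` positions in the three windows and replaces the digits of `N` at these positions, then for
all but at most a proportion `1 / K ^ U` of the choices the number `y` obtained satisfies
`|∑ n ≤ X, θ l n * (∏ i, Λ (a l i * n + h l i)) * μ (α l * n + y)| ≤ b ^ K / K ^ U`
for all `l` and all `X ≤ b ^ K / α l`. (For `r = 1`, `α l = a l 0 = 1` and `h l 0 = 0` this is the correlation
`∑ n ≤ X, Λ (n) μ (n + y)` of the Möbius function with the primes shifted by `y`, with a weight `θ l`.) -/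
theorem result (b : ℕ) (hb : 2 ≤ b) : ∃ R : ℕ, 1 ≤ R ∧ ∀ r B T U : ℕ, ∃ C A K₀ : ℕ, 1 ≤ C ∧
    ∀ K : ℕ, K₀ ≤ K → (∀ q, R * (C * (Nat.log b (K + 1) + 1)) ≤ (window (A * (Nat.log b (K + 1) + 1)) K q).card) ∧
    ∀ N : ℕ, N < b ^ K → ∀ f : ℕ → ℕ, (∀ j, f j < b ∧ f j ≠ digit b j N) →
    ∀ s : Fin 3 → ℕ, (∀ q, C * (Nat.log b (K + 1) + 1) ≤ s q ∧ R * s q ≤ (window (A * (Nat.log b (K + 1) + 1)) K q).card) →
    ∀ L : ℕ, L ≤ K ^ T → ∀ (α : Fin L → ℕ) (a h : Fin L → Fin r → ℕ) (θ : Fin L → ℕ → ℂ),
      (∀ l, 1 ≤ α l) → (∀ l i, a l i ≤ b ^ (B * K) ∧ h l i ≤ b ^ (B * K)) → (∀ l n, ‖θ l n‖ ≤ 1) →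
      (exceptions b (A * (Nat.log b (K + 1) + 1)) K N f s (fun y => ∀ l, ∀ X : ℕ, α l * X ≤ b ^ K →
          ‖∑ n ∈ Icc 1 X, θ l n * (∏ i, (ArithmeticFunction.vonMangoldt (a l i * n + h l i) : ℂ)) *
            mob (α l * n + y)‖ ≤ (b : ℝ) ^ K / (K : ℝ) ^ U) : ℝ) ≤
        1 / (K : ℝ) ^ U * (choices (A * (Nat.log b (K + 1) + 1)) K s).card := by
  classical
  obtain ⟨R, hR, H⟩ := Pool.Agent.TH894.LG.final_L b hb
  refine ⟨8 * R, by omega, fun r B T U => ?_⟩
  obtain ⟨C, hC, H1⟩ := H U T (2 * r)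
  obtain ⟨A, hA, k₀, h0⟩ := H1 Pool.Agent.H373R2.T7.muC Pool.Agent.W93.LM.nice_muC (8 * R * C)
  obtain ⟨k2, h2⟩ := Pool.Agent.W93.DG.hh_small b A 4 hb
  obtain ⟨k1, hk1⟩ := exists_nat_ge ((B + 2 : ℕ) * Real.log b : ℝ)
  refine ⟨C, 2 * A, k₀ + k1 + k2 + 8, hC, fun K hK => ?_⟩
  have hwin : ∀ q, window (2 * A * (Nat.log b (K + 1) + 1)) K q =
      Pool.Agent.TH894.SM.Win (Pool.Agent.W93.DG.hh b A (K + 1)) (K + 1) q := by
    intro q
    unfold window Pool.Agent.TH894.SM.Win Pool.Agent.W93.DG.hh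
    rw [Nat.add_sub_cancel]
  have hsm := h2 (K + 1) (by omega)
  have hlow : 8 * R * (C * (Nat.log b (K + 1) + 1)) ≤ Pool.Agent.W93.DG.hh b A (K + 1) := by
    unfold Pool.Agent.W93.DG.hh
    calc 8 * R * (C * (Nat.log b (K + 1) + 1)) = (8 * R * C) * (Nat.log b (K + 1) + 1) := by ring
      _ ≤ (2 * A) * (Nat.log b (K + 1) + 1) := Nat.mul_le_mul_right _ (by omega)
  refine ⟨fun q => ?_, fun N hN f hf s hs L hL α a h θ hα hah hθ => ?_⟩
  · rw [hwin]
    refine hlow.trans ?_
    unfold Pool.Agent.TH894.SM.Win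
    split_ifs
    · rw [Nat.card_Ico]; omega
    · rw [Nat.card_Ico]; omega
    · rw [Nat.card_Ico]; omega
  have hun : ∀ S : Fin 3 → Finset ℕ, Pool.Agent.TH894.SM.un S = S 0 ∪ S 1 ∪ S 2 := by
    intro S
    unfold Pool.Agent.TH894.SM.un
    ext x
    simp only [mem_biUnion, mem_univ, true_and, mem_union]
    constructor
    · rintro ⟨q, hq⟩
      have hq3 : q = 0 ∨ q = 1 ∨ q = 2 := by fin_cases q <;> simp
      rcases hq3 with rfl | rfl | rfl
      · exact Or.inl (Or.inl hq)
      · exact Or.inl (Or.inr hq)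
      · exact Or.inr hq
    · rintro ((h | h) | h)
      · exact ⟨0, h⟩
      · exact ⟨1, h⟩
      · exact ⟨2, h⟩
  have hch : choices (2 * A * (Nat.log b (K + 1) + 1)) K s = Pool.Agent.TH894.LG.Ch b A K s := by
    unfold choices Pool.Agent.TH894.LG.Ch
    simp only [hwin]
  -- the weights
  have hkr : (1 : ℝ) ≤ K := by exact_mod_cast (by omega : 1 ≤ K)
  have hlogb : 0 ≤ Real.log b := Real.log_natCast_nonneg b
  have hΛ : ∀ l i n, α l * n ≤ b ^ K →
      ‖(ArithmeticFunction.vonMangoldt (a l i * n + h l i) : ℂ)‖ ≤ (K : ℝ) ^ 2 := by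
    intro l i n hαn
    rw [Complex.norm_real, Real.norm_eq_abs, abs_of_nonneg ArithmeticFunction.vonMangoldt_nonneg]
    refine ArithmeticFunction.vonMangoldt_le_log.trans ?_
    have e1 : a l i * n + h l i ≤ b ^ ((B + 2) * K) := by
      have q1 : n ≤ b ^ K := le_trans (Nat.le_mul_of_pos_left _ (hα l)) hαn
      have q3 : 2 ≤ b ^ K := le_trans (by omega : 2 ≤ K) (Nat.lt_pow_self (by omega)).le
      calc a l i * n + h l i ≤ b ^ (B * K) * b ^ K + b ^ (B * K) * 1 := by
            rw [mul_one]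
            exact add_le_add (Nat.mul_le_mul (hah l i).1 q1) (hah l i).2
        _ ≤ b ^ (B * K) * b ^ K + b ^ (B * K) * b ^ K := by
            apply add_le_add le_rfl (Nat.mul_le_mul_left _ (by omega))
        _ = b ^ (B * K) * (2 * b ^ K) := by ring
        _ ≤ b ^ (B * K) * (b ^ K * b ^ K) := Nat.mul_le_mul_left _ (Nat.mul_le_mul_right _ q3)
        _ = b ^ ((B + 2) * K) := by rw [← pow_add, ← pow_add]; congr 1; ring
    rcases Nat.eq_zero_or_pos (a l i * n + h l i) with h0 | h0
    · rw [h0]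
      simp only [Nat.cast_zero, Real.log_zero]
      positivity
    · have e2 : Real.log ((a l i * n + h l i : ℕ) : ℝ) ≤ Real.log ((b ^ ((B + 2) * K) : ℕ) : ℝ) :=
        Real.log_le_log (by exact_mod_cast h0) (by exact_mod_cast e1)
      refine e2.trans ?_
      rw [Nat.cast_pow, Real.log_pow]
      have e3 : ((B + 2 : ℕ) : ℝ) * Real.log b ≤ K := hk1.trans (by exact_mod_cast (by omega : k1 ≤ K))
      calc (((B + 2) * K : ℕ) : ℝ) * Real.log b = (((B + 2 : ℕ) : ℝ) * Real.log b) * K := by push_cast; ring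
        _ ≤ K * K := mul_le_mul_of_nonneg_right e3 (by linarith)
        _ = _ := by ring
  have key : ∀ E : ℕ → Prop, (∀ y, ¬ E y → ∃ l X, α l * X ≤ b ^ K ∧ (b : ℝ) ^ K / (K : ℝ) ^ U <
        ‖∑ n ∈ Icc 1 X, (θ l n * ∏ i, (ArithmeticFunction.vonMangoldt (a l i * n + h l i) : ℂ)) *
          Pool.Agent.H373R2.T7.exI Pool.Agent.H373R2.T7.muC (((α l * n : ℕ) : ℤ) + (y : ℕ))‖) →
      (exceptions b (2 * A * (Nat.log b (K + 1) + 1)) K N f s E : ℝ) ≤
        1 / (K : ℝ) ^ U * (choices (2 * A * (Nat.log b (K + 1) + 1)) K s).card := by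
    intro E hE
    unfold exceptions
    rw [hch]
    refine h0 K (by omega) N hN f hf s (fun q => (hs q).1) (fun q => by rw [← hwin]; exact (hs q).2) L hL α
      (fun l n => θ l n * ∏ i, (ArithmeticFunction.vonMangoldt (a l i * n + h l i) : ℂ)) hα ?_ _ (filter_subset _ _) ?_
    · intro l n _ hαn
      rw [norm_mul, norm_prod]
      have e1 : ∏ i, ‖(ArithmeticFunction.vonMangoldt (a l i * n + h l i) : ℂ)‖ ≤ ∏ _i : Fin r, (K : ℝ) ^ 2 := by
        apply prod_le_prod (fun _ _ => norm_nonneg _)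
        intro i _
        exact hΛ l i n hαn
      rw [prod_const, card_univ, Fintype.card_fin, ← pow_mul] at e1
      calc _ ≤ 1 * (K : ℝ) ^ (2 * r) := mul_le_mul (hθ l n) e1 (prod_nonneg fun _ _ => norm_nonneg _) zero_le_one
        _ = (K : ℝ) ^ (2 * r) := one_mul _
    · intro S hS
      rw [mem_filter] at hS
      obtain ⟨_, hS2⟩ := hS
      rw [← hun S, change_SM] at hS2
      exact hE _ hS2
  apply key
  intro y hy
  push Not at hy
  obtain ⟨l, X, hX, hbig⟩ := hy
  refine ⟨l, X, hX, lt_of_lt_of_eq hbig ?_⟩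
  congr 1
  apply sum_congr rfl
  intro n hn
  rw [mem_Icc] at hn
  congr 1
  have h5 : 0 < α l * n := Nat.mul_pos (hα l) hn.1
  have h6 : (((α l * n : ℕ) : ℤ) + ((y : ℕ) : ℤ)) = ((α l * n + y : ℕ) : ℤ) := by push_cast; ring
  unfold Pool.Agent.H373R2.T7.exI
  rw [h6, if_pos (by exact_mod_cast (by omega : 1 ≤ α l * n + y)), Int.toNat_natCast]
  rfl

end Pool.Agent.Results.MP_0bfb7f_nt.FewDigitChanges
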