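import Pool.Agent.TH872.GQ.Shift

/-!
# The Möbius function at shifted primes, for shifts which are quadratic values at integers with restricted digits

Definitions used (in `Pool.Agent.TH872.GQ`): `S b D k`: the integers below `b ^ k` whose `i`-th digit in base `b`
lies in `D i`, for all `i < k`; `value κ β c n = c + κ n ^ 2 + β n`.
-/

set_option autoImplicit false

namespace Pool.Agent.Results.MP_0bfb7f_nt.QuadraticShifts

open Finset Pool.Agent.TH872.GQ

/-- The Möbius function, extended by `0` to the integers `≤ 0`. -/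
noncomputable def mu (m : ℤ) : ℂ := if 1 ≤ m then ((ArithmeticFunction.moebius m.toNat : ℤ) : ℂ) else 0

open Classical in
/-- Let `b ≥ 2`, integers `κ ≠ 0` and `β`, and `B`, `T`, `U` be fixed, and let `k` be large. Let `D 0, …, D (k - 1)` be
arbitrary sets of at least two digits in base `b`, let `S` be the set of the integers below `b ^ k` whose `i`-th digit
lies in `D i` for all `i < k`, and let `c` be an arbitrary integer with `|c| ≤ B b ^ (2 k)`. For each of at most `k ^ T`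
indices `l` let `α l ≥ 1`, and let `g l` be an ARBITRARY function with `|g l n| ≤ k ^ T` for `α l * n ≤ B b ^ (2 k)` (for
example `g l n = θ(n) * ∏ i, Λ(a_i n + b_i)` with `θ` bounded by `1`; `g l n = Λ n`, `α l = 1` gives the sum
`∑ n, Λ(n) μ(n + h)` of Q1 with the shift `h` in place of `1`).
Then for all `m ∈ S`, except for at most `#S / k ^ U` of them, the shift `h = c + κ m ^ 2 + β m` satisfies
`|∑ n ≤ X, g l n * μ(α l * n + h)| ≤ b ^ (2 k) / k ^ U` for all `l` and all `X` with `α l * X ≤ B b ^ (2 k)`. -/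
theorem result (b B T U : ℕ) (hb : 2 ≤ b) (κ β : ℤ) (hκ : κ ≠ 0) :
    ∃ k₀ : ℕ, ∀ k : ℕ, k₀ ≤ k → ∀ D : ℕ → Finset ℕ, (∀ i < k, D i ⊆ range b ∧ 2 ≤ (D i).card) →
      ∀ c : ℤ, |c| ≤ B * (b : ℤ) ^ (2 * k) →
      ∀ L : ℕ, (L : ℝ) ≤ (k : ℝ) ^ T → ∀ (α : Fin L → ℕ) (g : Fin L → ℕ → ℂ), (∀ l, 1 ≤ α l) →
      (∀ l n, α l * n ≤ B * b ^ (2 * k) → ‖g l n‖ ≤ (k : ℝ) ^ T) →
      (((S b D k).filter (fun m => ¬ ∀ l, ∀ X : ℕ, α l * X ≤ B * b ^ (2 * k) →
        ‖∑ n ∈ Icc 1 X, g l n * mu (α l * n + value κ β c m)‖ ≤ (b : ℝ) ^ (2 * k) / (k : ℝ) ^ U)).card : ℝ) ≤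
        (S b D k).card / (k : ℝ) ^ U := by
  obtain ⟨k₀, h⟩ := shifts _ Pool.Agent.H373R2.T7.muC_norm Pool.Agent.H373R2.T7.sup_muC b hb κ β hκ B T U
  refine ⟨k₀, fun k hk D hD c hc L hL α g hα hg => h k hk D hD c hc L hL α g hα hg _ ?_⟩
  intro m hm
  push Not at hm
  obtain ⟨l, X, hX, h1⟩ := hm
  refine ⟨l, X, hX, lt_of_lt_of_eq h1 ?_⟩
  congr 1

end Pool.Agent.Results.MP_0bfb7f_nt.QuadraticShifts
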