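import Pool.Agent.TH823.Fam.Fam2

/-!
# The Möbius function at primes shifted by members of thin families

The exponential sum bounds for the Möbius function (Davenport's theorem with arbitrary powers of the
logarithm), the bilinear inequality for families of shifts and the moments of Weyl sums are from the
starting files (`Pool.Agent.H807R2.Dav`, `Pool.Agent.H373R2`).
From Mathlib: `Polynomial ℤ`: the polynomials with integer coefficients; `f.eval m`: the value at `m`.
-/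

set_option autoImplicit false

namespace Pool.Agent.Results.MP_0bfb7f_nt.ThinFamilies

open Finset

/-- The Möbius function, with complex values. -/
noncomputable def mob (n : ℕ) : ℂ := ((ArithmeticFunction.moebius n : ℤ) : ℂ)

/-- The extension of a function on the positive integers to the integers, with the value `0` at the integers
`m ≤ 0`. -/
noncomputable def ext (f : ℕ → ℂ) (m : ℤ) : ℂ := if 1 ≤ m then f m.toNat else 0

/-- `|f n| ≤ 1` for all `n`, and for every `U` one has `|∑_{n ≤ N} f(n) e(n t)| ≤ N / (log N) ^ U` for all real `t`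
and all large `N` (depending on `U` only). -/
def Davenport (f : ℕ → ℂ) : Prop :=
  (∀ n, ‖f n‖ ≤ 1) ∧ ∀ U : ℕ, ∃ N₀ : ℕ, ∀ N : ℕ, N₀ ≤ N → ∀ t : ℝ,
    ‖∑ n ∈ Icc 1 N, f n * Complex.exp (2 * Real.pi * (n * t) * Complex.I)‖ ≤ N / Real.log N ^ U

/-- The additive energy of order `p` of the family `s 1, ..., s x`: the number of the solutions of
`s (v 1) + ... + s (v p) = s (w 1) + ... + s (w p)` with all `v i`, `w i` in `{1, ..., x}`. -/
def energy (p x : ℕ) (s : ℕ → ℤ) : ℕ :=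
  (((Fintype.piFinset fun _ : Fin p => Icc 1 x) ×ˢ (Fintype.piFinset fun _ : Fin p => Icc 1 x)).filter
    (fun q => ∑ i, s (q.1 i) = ∑ i, s (q.2 i))).card

open Classical in
/-- The number of the `m` in `{1, ..., x}` with the property `E`. -/
noncomputable def num (x : ℕ) (E : ℕ → Prop) : ℝ := (((Icc 1 x).filter E).card : ℝ)

lemma num_mono {x : ℕ} {E F : ℕ → Prop} (h : ∀ m ∈ Icc 1 x, E m → F m) : num x E ≤ num x F := by
  classical
  unfold num
  apply Nat.cast_le.2
  apply card_le_card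
  intro m hm
  rw [mem_filter] at hm ⊢
  exact ⟨hm.1, h m hm.1 hm.2⟩

lemma num_eq (x : ℕ) (E : ℕ → Prop) [DecidablePred E] : num x E = (((Icc 1 x).filter E).card : ℝ) := by
  unfold num
  congr!

lemma sup_of (f : ℕ → ℂ) (hf : Davenport f) : Pool.Agent.H373R2.T7.SupSmall f := by
  intro U
  obtain ⟨N₀, h⟩ := hf.2 U
  refine ⟨N₀, fun N hN t => ?_⟩
  refine le_trans (le_of_eq ?_) (h N hN t)
  congr 1
  apply sum_congr rfl
  intro n _
  congr 1
  unfold Pool.Agent.H807R2.Dav.ee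
  congr 1
  push_cast
  ring

lemma dav_mob : Davenport mob := by
  refine ⟨Pool.Agent.H373R2.T7.muC_norm, fun U => ?_⟩
  obtain ⟨N₀, h⟩ := Pool.Agent.H373R2.T7.sup_muC U
  refine ⟨N₀, fun N hN t => ?_⟩
  refine le_trans (le_of_eq ?_) (h N hN t)
  congr 1
  apply sum_congr rfl
  intro n _
  congr 1
  unfold Pool.Agent.H807R2.Dav.ee
  congr 1
  push_cast
  ring

lemma general (f : ℕ → ℂ) (hf : Davenport f) (p B C T U : ℕ) :
    ∃ N₀ : ℕ, ∀ N : ℕ, N₀ ≤ N → ∀ (x : ℕ) (s : ℕ → ℤ), (∀ m ∈ Icc 1 x, |s m| ≤ B * N) →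
      (energy p x s : ℝ) * N ≤ Real.log N ^ C * (x : ℝ) ^ (2 * p) →
      ∀ L : ℕ, (L : ℝ) ≤ Real.log N ^ T → ∀ (α : Fin L → ℕ) (g : Fin L → ℕ → ℂ),
        (∀ l, 1 ≤ α l) → (∀ l n, α l * n ≤ B * N → ‖g l n‖ ≤ Real.log N ^ T) →
        num x (fun m => ¬ ∀ l, ∀ X : ℕ, α l * X ≤ B * N →
          ‖∑ n ∈ Icc 1 X, g l n * ext f (α l * n + s m)‖ ≤ N / Real.log N ^ U) ≤ x / Real.log N ^ U := by
  classical
  obtain ⟨N₀, h0⟩ := Pool.Agent.TH823.Fam.fam_all f hf.1 (sup_of f hf) p B C T U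
  refine ⟨N₀ + 3, fun N hN x s hs hE L hL α g hα hg => ?_⟩
  refine le_trans (le_of_eq (num_eq _ _)) (h0 N (by omega) x s hs hE L hL
    (fun l => if hl : l < L then α ⟨l, hl⟩ else 1)
    (fun l n => if hl : l < L then g ⟨l, hl⟩ n else 0) (by
      intro l hl
      simp only [hl, dif_pos]
      exact hα _) (by
      intro l hl n hn1 hn2
      simp only [hl, dif_pos] at hn2 ⊢
      exact hg _ _ hn2)
    (fun m => ¬ ∀ l, ∀ X : ℕ, α l * X ≤ B * N →
          ‖∑ n ∈ Icc 1 X, g l n * ext f (α l * n + s m)‖ ≤ N / Real.log N ^ U) (by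
    intro m _ hm
    push Not at hm
    obtain ⟨l, X, hX, h2⟩ := hm
    refine ⟨l, l.2, X, ?_, lt_of_lt_of_eq h2 ?_⟩
    · simp only [l.2, dif_pos]
      exact hX
    · simp only [l.2, dif_pos]
      congr 1))

/-- The Möbius function has the property `Davenport` (Davenport's theorem), and the following holds for every function
`f` with the property `Davenport` (for example also for the Liouville function). Let `B`, `C`, `T` and `U` be fixed and
let `N` be large. For each of at most `log ^ T N` indices `l` let `α l ≥ 1`, and let `g l : ℕ → ℂ` be an ARBITRARY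
function with `|g l n| ≤ log ^ T N` for `n ≤ B N / α l` (for example `g l n = θ(n) * ∏ i, Λ (a_i n + b_i)` with `θ` bounded
by `1`; `g l n = Λ n`, `α l = 1`, `f = μ` gives the sum `∑ n, Λ(n) μ(n + h)` of Q1 with the shift `h` in place of `1`).

* Let `s 1, ..., s x` be an arbitrary family of integers in `[-B N, B N]` with an additive energy of some fixed order `p`
  of at most `log ^ C N` times the minimal possible size `x ^ (2 p) / N` (the family may have as few as `N ^ (1 / p)`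
  members). Then, for all `m ≤ x` with at most `x / log ^ U N` exceptions, the shift `h = s m` satisfies
  `|∑ n ≤ X, g l n * f (α l * n + h)| ≤ N / log ^ U N` for all `l` and all `X ≤ B N / α l`.
* In particular this holds for the shifts `h = c + P(m)`, `m ≤ x`, where `P` is a fixed nonconstant polynomial with integer
  coefficients, of degree `d`, `N / log ^ C N ≤ x ^ d ≤ B N` and `|c| ≤ B N`. -/
theorem result : Davenport mob ∧ ∀ f : ℕ → ℂ, Davenport f → ∀ B C T U : ℕ,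
    (∀ p : ℕ, ∃ N₀ : ℕ, ∀ N : ℕ, N₀ ≤ N → ∀ (x : ℕ) (s : ℕ → ℤ), (∀ m ∈ Icc 1 x, |s m| ≤ B * N) →
      (energy p x s : ℝ) * N ≤ Real.log N ^ C * (x : ℝ) ^ (2 * p) →
      ∀ L : ℕ, (L : ℝ) ≤ Real.log N ^ T → ∀ (α : Fin L → ℕ) (g : Fin L → ℕ → ℂ),
        (∀ l, 1 ≤ α l) → (∀ l n, α l * n ≤ B * N → ‖g l n‖ ≤ Real.log N ^ T) →
        num x (fun m => ¬ ∀ l, ∀ X : ℕ, α l * X ≤ B * N →
          ‖∑ n ∈ Icc 1 X, g l n * ext f (α l * n + s m)‖ ≤ N / Real.log N ^ U) ≤ x / Real.log N ^ U) ∧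
    (∀ P : Polynomial ℤ, 1 ≤ P.natDegree → ∃ N₀ : ℕ, ∀ N : ℕ, N₀ ≤ N → ∀ x : ℕ,
      x ^ P.natDegree ≤ B * N → (N : ℝ) ≤ Real.log N ^ C * (x : ℝ) ^ P.natDegree → ∀ c : ℤ, |c| ≤ B * N →
      ∀ L : ℕ, (L : ℝ) ≤ Real.log N ^ T → ∀ (α : Fin L → ℕ) (g : Fin L → ℕ → ℂ),
        (∀ l, 1 ≤ α l) → (∀ l n, α l * n ≤ B * N → ‖g l n‖ ≤ Real.log N ^ T) →
        num x (fun m => ¬ ∀ l, ∀ X : ℕ, α l * X ≤ B * N →
          ‖∑ n ∈ Icc 1 X, g l n * ext f (α l * n + (c + P.eval (m : ℤ)))‖ ≤ N / Real.log N ^ U) ≤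
          x / Real.log N ^ U) := by
  classical
  refine ⟨dav_mob, fun f hf B C T U => ⟨fun p => general f hf p B C T U, fun P hd => ?_⟩⟩
  obtain ⟨p, B', hB', N1, h1⟩ := Pool.Agent.TH823.Fam.poly_family P hd B C
  obtain ⟨N2, h2⟩ := general f hf p B' (C + 1) T U
  obtain ⟨N3, h5⟩ := Pool.Agent.H373R2.T7.ev_L' 0
  refine ⟨N1 + N2 + N3 + 1, fun N hN x hx1 hx2 c hc L hL α g hα hg => ?_⟩
  obtain ⟨h3, h4⟩ := h1 N (by omega) x hx1 hx2 c hc
  have hL0 := h5 N (by omega)
  refine le_trans ?_ (h2 N (by omega) x (fun m => c + P.eval (m : ℤ)) h3 h4 L hL α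
    (fun l n => if α l * n ≤ B * N then g l n else 0) hα (fun l n _ => ?_))
  · apply num_mono
    intro m _ hm hcon
    refine hm fun l X hX => ?_
    refine le_trans (le_of_eq ?_) (hcon l X (hX.trans (Nat.mul_le_mul_right _ hB')))
    congr 1
    apply sum_congr rfl
    intro n hn
    rw [mem_Icc] at hn
    rw [if_pos ((Nat.mul_le_mul_left _ hn.2).trans hX)]
  · split_ifs with h6
    · exact hg l n h6
    · rw [norm_zero]
      exact pow_nonneg hL0 _

end Pool.Agent.Results.MP_0bfb7f_nt.ThinFamilies
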